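import Pool.Agent.H466.HD.SB
import Pool.Agent.H271.HP.Cnt

/-!
# Local count of the zeros of the backward heat flow (`S_CNTN`)
-/

set_option autoImplicit false

open Complex MeasureTheory Filter Topology Set
open scoped ComplexConjugate

namespace Pool.Agent.H585.HD

open Pool.Agent.H466.HP Pool.Agent.H466.HF Pool.Agent.H466.LD Pool.Agent.H466.HN
open Pool.Agent.H466.HD
open Pool.Agent.H862.VK (Yz)

lemma i8 {μ : ℝ} (hμ : 0 < μ) : Integrable (fun v : ℝ => Real.exp (-v ^ 2 / (8 * μ))) :=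
  ga_integrable (k := 8 * μ) (by positivity)

lemma v8 {μ : ℝ} (hμ : 0 < μ) : ∫ v : ℝ, Real.exp (-v ^ 2 / (8 * μ)) ≤
    2 * Real.sqrt (Real.pi * (4 * μ)) := by
  have h1 := ga_integral (k := 8 * μ) (by positivity)
  unfold ga at h1
  rw [h1, show Real.pi * (8 * μ) = 2 * (Real.pi * (4 * μ)) by ring,
    Real.sqrt_mul (by norm_num)]
  apply mul_le_mul_of_nonneg_right _ (sqrt_pos' hμ).le
  rw [Real.sqrt_le_left (by norm_num)]
  norm_num

lemma i4 {μ : ℝ} (hμ : 0 < μ) : Integrable (fun v : ℝ => Real.exp (-v ^ 2 / (4 * μ))) :=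
  ga_integrable (k := 4 * μ) (by positivity)

lemma v4 {μ : ℝ} (hμ : 0 < μ) : ∫ v : ℝ, Real.exp (-v ^ 2 / (4 * μ)) =
    Real.sqrt (Real.pi * (4 * μ)) :=
  ga_integral (k := 4 * μ) (by positivity)

lemma e3 : 2 * Real.exp (-3) ≤ 1 / 8 := by
  have h1 : (4 : ℝ) ≤ Real.exp 3 := by
    have := Real.add_one_le_exp (3 : ℝ)
    linarith
  have h2 : (16 : ℝ) ≤ Real.exp 3 := by
    have h3 : Real.exp 3 = Real.exp 1 * Real.exp 1 * Real.exp 1 := by
      rw [← Real.exp_add, ← Real.exp_add]; norm_num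
    have h4 : (2.7182818283 : ℝ) < Real.exp 1 := Real.exp_one_gt_d9
    rw [h3]
    have h5 : (2.7 : ℝ) * 2.7 ≤ Real.exp 1 * Real.exp 1 :=
      mul_le_mul (by linarith) (by linarith) (by norm_num) (Real.exp_pos _).le
    have h6 : (2.7 : ℝ) * 2.7 * 2.7 ≤ Real.exp 1 * Real.exp 1 * Real.exp 1 :=
      mul_le_mul h5 (by linarith) (by norm_num) (by positivity)
    linarith
  rw [Real.exp_neg]
  have : (Real.exp 3)⁻¹ ≤ (16 : ℝ)⁻¹ := inv_anti₀ (by norm_num) h2
  linarith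

/-- a point on the horizontal line where the function is large -/
lemma ex_pt {H : ℂ → ℂ} {μ t G X1 L E K s1 : ℝ} (hμ : 0 < μ) (hG : 0 < G)
    (hF : Real.sqrt (Real.pi * (4 * μ)) * G ≤
      ∫ s : ℝ, ‖H ((X1 : ℂ) + (t : ℂ) * I + s)‖ * Real.exp (-s ^ 2 / (4 * μ)))
    (hline : ∀ x : ℝ, ‖H ((x : ℂ) + (t : ℂ) * I)‖ ≤
      2 * G * Real.exp (L * |x| + E + 2 * K * x ^ 2))
    (htail : ∀ s : ℝ, s1 ≤ |s| → L * |X1 + s| + E + 2 * K * (X1 + s) ^ 2 + 3 ≤ s ^ 2 / (8 * μ)) :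
    ∃ s : ℝ, |s| ≤ s1 ∧ G / 4 ≤ ‖H (((X1 + s : ℝ) : ℂ) + (t : ℂ) * I)‖ := by
  by_contra hcon
  push Not at hcon
  have hS := sqrt_pos' hμ
  have hb : ∀ s : ℝ, ‖H ((X1 : ℂ) + (t : ℂ) * I + s)‖ * Real.exp (-s ^ 2 / (4 * μ)) ≤
      G / 4 * Real.exp (-s ^ 2 / (4 * μ)) + G / 8 * Real.exp (-s ^ 2 / (8 * μ)) := by
    intro s
    have e1 : (X1 : ℂ) + (t : ℂ) * I + s = ((X1 + s : ℝ) : ℂ) + (t : ℂ) * I := by
      push_cast; ring
    rw [e1]
    have p4 := Real.exp_pos (-s ^ 2 / (4 * μ))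
    have p8 := Real.exp_pos (-s ^ 2 / (8 * μ))
    rcases le_or_gt |s| s1 with hs | hs
    · have h1 := (hcon s hs).le
      have h2 := mul_le_mul_of_nonneg_right h1 p4.le
      have h3 : 0 ≤ G / 8 * Real.exp (-s ^ 2 / (8 * μ)) := by positivity
      linarith
    · have h1 := hline (X1 + s)
      have h2 := htail s hs.le
      have h3 : ‖H (((X1 + s : ℝ) : ℂ) + (t : ℂ) * I)‖ * Real.exp (-s ^ 2 / (4 * μ)) ≤
          2 * G * Real.exp (-3 + -s ^ 2 / (8 * μ)) := by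
        refine (mul_le_mul_of_nonneg_right h1 p4.le).trans ?_
        rw [mul_assoc (2 * G), ← Real.exp_add]
        apply mul_le_mul_of_nonneg_left _ (by positivity)
        apply Real.exp_le_exp.mpr
        have e2 : -s ^ 2 / (4 * μ) = -(s ^ 2 / (8 * μ)) + -s ^ 2 / (8 * μ) := by
          field_simp
          ring
        rw [e2]
        linarith
      rw [Real.exp_add] at h3
      have h4 := mul_le_mul_of_nonneg_right e3 (show 0 ≤ G * Real.exp (-s ^ 2 / (8 * μ)) by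
        positivity)
      have h5 : 0 ≤ G / 4 * Real.exp (-s ^ 2 / (4 * μ)) := by positivity
      have e4 : 2 * G * (Real.exp (-3) * Real.exp (-s ^ 2 / (8 * μ))) =
        2 * Real.exp (-3) * (G * Real.exp (-s ^ 2 / (8 * μ))) := by ring
      rw [e4] at h3
      linarith
  have h1 : ∫ s : ℝ, ‖H ((X1 : ℂ) + (t : ℂ) * I + s)‖ * Real.exp (-s ^ 2 / (4 * μ)) ≤
      ∫ s : ℝ, (G / 4 * Real.exp (-s ^ 2 / (4 * μ)) + G / 8 * Real.exp (-s ^ 2 / (8 * μ))) :=
    integral_mono_of_nonneg (Eventually.of_forall fun v => by positivity)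
      (((i4 hμ).const_mul _).add ((i8 hμ).const_mul _)) (Eventually.of_forall hb)
  rw [integral_add ((i4 hμ).const_mul _) ((i8 hμ).const_mul _), integral_const_mul,
    integral_const_mul, v4 hμ] at h1
  have h2 := mul_le_mul_of_nonneg_left (v8 hμ) (show 0 ≤ G / 8 by positivity)
  have h3 : 0 < Real.sqrt (Real.pi * (4 * μ)) * G := by positivity
  have h4 : Real.sqrt (Real.pi * (4 * μ)) * G ≤
      G / 4 * Real.sqrt (Real.pi * (4 * μ)) + G / 8 * (2 * Real.sqrt (Real.pi * (4 * μ))) := by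
    linarith
  have e5 : G / 4 * Real.sqrt (Real.pi * (4 * μ)) + G / 8 * (2 * Real.sqrt (Real.pi * (4 * μ))) =
    1 / 2 * (Real.sqrt (Real.pi * (4 * μ)) * G) := by ring
  rw [e5] at h4
  linarith

/-- Jensen's inequality -/
lemma jen1 {H : ℂ → ℂ} (hH : Differentiable ℂ H) {z1 : ℂ} {G ρ0 E2 : ℝ} (hG : 0 < G) (hρ : 0 < ρ0)
    (hlow : G / 4 ≤ ‖H z1‖)
    (hdisc : ∀ z : ℂ, ‖z‖ ≤ Real.exp 1 * ρ0 → ‖H (z1 + z)‖ ≤ 2 * G * Real.exp E2)
    (S : Finset ℂ) (hS : ∀ u ∈ S, H u = 0 ∧ ‖u - z1‖ ≤ ρ0) :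
    ∑ u ∈ S, (analyticOrderNatAt H u : ℝ) ≤ Real.log 8 + E2 := by
  have he0 := Real.exp_pos 1
  have hne : H z1 ≠ 0 := by
    rw [← norm_pos_iff]
    exact lt_of_lt_of_le (by positivity) hlow
  have hj := jen_weight hH (C := z1) (R := Real.exp 1 * ρ0) (B := 2 * G * Real.exp E2) (b := G / 4)
    (ℒ := 0) (by positivity) (by positivity) le_rfl (fun z hz => by
      rw [zero_mul, Real.exp_zero, mul_one]
      exact hdisc z hz) hlow S (fun _ => 1) (fun u hu => (hS u hu).1)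
    (fun u hu _ => ?_) (fun u hu h => ?_)
  · simp only [mul_one, mul_zero, add_zero] at hj
    refine hj.trans (le_of_eq ?_)
    have e : 2 * G * Real.exp E2 / (G / 4) = 8 * Real.exp E2 := by
      have := hG.ne'
      field_simp
      ring
    rw [e, Real.log_mul (by norm_num) (Real.exp_pos _).ne', Real.log_exp]
  · obtain ⟨h1, h2⟩ := hS u hu
    have h3 : 0 < ‖u - z1‖ := by
      rw [norm_pos_iff, sub_ne_zero]
      intro h
      exact hne (h ▸ h1)
    rw [Real.le_log_iff_exp_le (by positivity), le_div_iff₀ h3]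
    exact mul_le_mul_of_nonneg_left h2 he0.le
  · exfalso
    obtain ⟨h1, h2⟩ := hS u hu
    have h3 : 1 ≤ Real.exp 1 := Real.one_le_exp (by norm_num)
    have h4 : 1 * ρ0 ≤ Real.exp 1 * ρ0 := mul_le_mul_of_nonneg_right h3 hρ.le
    linarith

/-- from the pointwise bound to the bound for the backward heat flow -/
lemma back_bd (h : S_BACK) {μ G Q x y : ℝ} (hμ : 0 < μ) (hG : 0 ≤ G)
    (hb : ∀ v : ℝ, ‖LL gk 0 ((x : ℂ) + (y : ℂ) * I + v * I)‖ * Real.exp (-v ^ 2 / (4 * μ)) ≤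
      G * Real.exp Q * Real.exp (-v ^ 2 / (8 * μ))) :
    ‖LL gk (-μ) ((x : ℂ) + (y : ℂ) * I)‖ ≤ 2 * G * Real.exp Q := by
  have hS := sqrt_pos' hμ
  have h1 := h μ hμ ((x : ℂ) + (y : ℂ) * I) 0
  have e0 : -((0 : ℝ) ^ 2 / (4 * μ)) = 0 := by simp
  rw [e0, Real.exp_zero, mul_one, ofReal_zero, add_zero] at h1
  have h2 : ∫ v : ℝ, ‖LL gk 0 ((x : ℂ) + (y : ℂ) * I + v * I)‖ * Real.exp (-v ^ 2 / (4 * μ)) ≤
      ∫ v : ℝ, G * Real.exp Q * Real.exp (-v ^ 2 / (8 * μ)) :=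
    integral_mono_of_nonneg (Eventually.of_forall fun v => by positivity) ((i8 hμ).const_mul _)
      (Eventually.of_forall hb)
  rw [integral_const_mul] at h2
  have h3 := mul_le_mul_of_nonneg_left (v8 hμ) (show 0 ≤ G * Real.exp Q by positivity)
  have h4 : Real.sqrt (Real.pi * (4 * μ)) * ‖LL gk (-μ) ((x : ℂ) + (y : ℂ) * I)‖ ≤
      Real.sqrt (Real.pi * (4 * μ)) * (2 * G * Real.exp Q) := by
    have e : G * Real.exp Q * (2 * Real.sqrt (Real.pi * (4 * μ))) =
      Real.sqrt (Real.pi * (4 * μ)) * (2 * G * Real.exp Q) := by ring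
    rw [e] at h3
    linarith
  exact le_of_mul_le_mul_left h4 hS

lemma sym_norm (μ x y : ℝ) : ‖LL gk (-μ) ((x : ℂ) + (y : ℂ) * I)‖ =
    ‖LL gk (-μ) (((|x| : ℝ) : ℂ) + (y : ℂ) * I)‖ := by
  rcases le_or_gt 0 x with h | h
  · rw [abs_of_nonneg h]
  · have h1 := Pool.Agent.H271.HP.LL_fe (-μ) (((|x| : ℝ) : ℂ) + (y : ℂ) * I)
    have e : -conj (((|x| : ℝ) : ℂ) + (y : ℂ) * I) = (x : ℂ) + (y : ℂ) * I := by
      rw [map_add, map_mul, conj_ofReal, conj_ofReal, conj_I, abs_of_neg h]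
      push_cast
      ring
    rw [e] at h1
    rw [h1, RCLike.norm_conj]

/-- absorbing a linear term in a Gaussian -/
lemma lin_gauss {μ p v : ℝ} (hμ : 0 < μ) :
    p * v ≤ v ^ 2 / (8 * μ) + 2 * p ^ 2 * μ := by
  have h1 : v ^ 2 / (8 * μ) + 2 * p ^ 2 * μ - p * v = (v - 4 * μ * p) ^ 2 / (8 * μ) := by
    field_simp
    ring
  have h2 : 0 ≤ (v - 4 * μ * p) ^ 2 / (8 * μ) := by positivity
  linarith

/-- upper bound for the backward flow, small scale -/
lemma bd1 (h : S_BACK) {T t y0 μ K μ0 Γt L : ℝ} (hL : L = Real.log T) (hT : 10 ≤ T) (hL1 : 1 ≤ L)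
    (hy0 : 0 < y0) (hy1 : y0 ≤ 1) (R : Rg T t (y0 * L) 64 (1 / 64)) (D : Far t (L / 2) Γt K μ0)
    (hμ : 0 < μ) (h64 : μ * L ≤ 64 * y0) (h8 : 8 * (3 + μ0) * (μ * L) ≤ 1)
    (h104 : 104 * K * μ ≤ 1) {x y : ℝ} (hx : 0 ≤ x) (hy : |y - t| ≤ 1) :
    ‖LL gk (-μ) ((x : ℂ) + (y : ℂ) * I)‖ ≤ 2 * ‖LL gk 0 ((y0 : ℂ) + (t : ℂ) * I)‖ *
      Real.exp (L * x + (4 * (y0 * L) + L / 21 * |y - t|) + 2 * K * x ^ 2) := by
  have hLp : 0 < L := by linarith
  have hK1 := D.K1
  have hμ0 := D.μ0p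
  have hK0 : 0 < K := by linarith
  have hyy : y0 * L / Real.log T = y0 := by rw [← hL]; field_simp
  have hA1 : 0 < y0 * L := by positivity
  have D' : Far t (Real.log T / 2) Γt K μ0 := by rw [← hL]; exact D
  have hlow := base_low (X1 := y0) hT hA1 (by rw [hyy]; exact hy1) (M := 64) (κ := 1 / 64)
    (by norm_num) (by norm_num) R D' (by rw [hyy]) (by linarith)
  rw [← hL] at hlow
  set G := ‖LL gk 0 ((y0 : ℂ) + (t : ℂ) * I)‖ with hG
  have hΓ0 := D.Γpos
  have hGp : 0 < G := by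
    have h1 : 0 < G * Real.exp (-(L / 2 * y0)) := lt_of_lt_of_le (by positivity) hlow
    exact pos_of_mul_pos_left h1 (Real.exp_pos _).le
  have hΓt : Γt ≤ G * Real.exp (10 * K + 3 * (1 / 64 * L)) := by
    have h3 := mul_le_mul_of_nonneg_right hlow (Real.exp_pos (10 * K + 3 * (1 / 64 * L))).le
    rw [mul_assoc, ← Real.exp_add, neg_add_cancel, Real.exp_zero, mul_one] at h3
    refine h3.trans ?_
    have h4 : Real.exp (-(L / 2 * y0)) ≤ 1 := by
      rw [Real.exp_le_one_iff]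
      have : 0 ≤ L / 2 * y0 := by positivity
      linarith
    have h5 : G * Real.exp (-(L / 2 * y0)) ≤ G * 1 := mul_le_mul_of_nonneg_left h4 hGp.le
    rw [mul_one] at h5
    exact mul_le_mul_of_nonneg_right h5 (Real.exp_pos _).le
  refine back_bd h hμ hGp.le fun v => ?_
  have hv0 := abs_nonneg v
  have hvs : |v| ^ 2 = v ^ 2 := sq_abs v
  have ev : (x : ℂ) + (y : ℂ) * I + v * I = (x : ℂ) + ((t + (y - t + v) : ℝ) : ℂ) * I := by
    push_cast; ring
  have hvt : |y - t + v| ≤ |y - t| + |v| := abs_add_le _ _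
  have esplit : -v ^ 2 / (4 * μ) = -(v ^ 2 / (8 * μ)) + -v ^ 2 / (8 * μ) := by
    field_simp
    ring
  have hLx : 0 ≤ L * x := by positivity
  have hKx : 0 ≤ K * x ^ 2 := by positivity
  have hLy : 0 ≤ L * |y - t| := by positivity
  rw [ev]
  rcases le_or_gt |v| 2 with hv | hv
  · have h1 := ustar mono (X1 := y0) hT hA1 (by rw [hyy]; exact hy1) (M := 64) (κ := 1 / 64)
      (by norm_num) (by norm_num) (by norm_num) (by norm_num) R D' (by rw [hyy]) (by linarith) hx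
      (v := y - t + v) (by linarith)
    rw [← hL, ← hG] at h1
    refine (mul_le_mul_of_nonneg_right h1 (Real.exp_pos _).le).trans ?_
    rw [mul_assoc G, mul_assoc G, ← Real.exp_add, ← Real.exp_add]
    apply mul_le_mul_of_nonneg_left _ hGp.le
    apply Real.exp_le_exp.mpr
    have h2 : 3 * (1 / 64) * L * |y - t + v| ≤ 3 * (1 / 64) * L * (|y - t| + |v|) :=
      mul_le_mul_of_nonneg_left hvt (by positivity)
    have h3 := lin_gauss (μ := μ) (p := 3 * (1 / 64) * L) (v := |v|) hμ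
    rw [hvs] at h3
    have h4 : 2 * (3 * (1 / 64) * L) ^ 2 * μ ≤ y0 * L := by
      have h5 : μ * L * L ≤ 64 * y0 * L := mul_le_mul_of_nonneg_right h64 hLp.le
      have e : 2 * (3 * (1 / 64) * L) ^ 2 * μ = 18 / 4096 * (μ * L * L) := by ring
      rw [e]
      linarith
    rw [esplit]
    rw [mul_add] at h2
    linarith
  · have h1 := D.up ((x : ℂ) + ((t + (y - t + v) : ℝ) : ℂ) * I)
    have e1 : ((x : ℂ) + ((t + (y - t + v) : ℝ) : ℂ) * I).re = x := by simp
    have e2 : ((x : ℂ) + ((t + (y - t + v) : ℝ) : ℂ) * I).im - t = y - t + v := by simp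
    rw [e1, e2, abs_of_nonneg hx] at h1
    have h2 := h1.trans (mul_le_mul_of_nonneg_right hΓt (Real.exp_pos _).le)
    refine (mul_le_mul_of_nonneg_right h2 (Real.exp_pos _).le).trans ?_
    rw [mul_assoc G, mul_assoc G, mul_assoc G, ← Real.exp_add, ← Real.exp_add, ← Real.exp_add]
    apply mul_le_mul_of_nonneg_left _ hGp.le
    apply Real.exp_le_exp.mpr
    have h3 : (y - t + v) ^ 2 ≤ 2 + 2 * v ^ 2 := by
      rw [← sq_abs (y - t + v), ← hvs]
      have h4 : |y - t + v| ≤ 1 + |v| := by linarith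
      have h5 : |y - t + v| ^ 2 ≤ (1 + |v|) ^ 2 := pow_le_pow_left₀ (abs_nonneg _) h4 2
      have h6 := sq_nonneg (|v| - 1)
      linarith
    have h4 : K * (1 + x ^ 2 + (y - t + v) ^ 2) ≤ K * (1 + x ^ 2 + (2 + 2 * v ^ 2)) :=
      mul_le_mul_of_nonneg_left (by linarith) hK0.le
    have hv4 : 4 ≤ v ^ 2 := by
      rw [← hvs]
      have := pow_le_pow_left₀ (by norm_num) hv.le 2
      linarith
    have h5 : 13 * K + (3 / 64 + μ0 / 2) * L + 2 * K * v ^ 2 ≤ v ^ 2 / (8 * μ) := by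
      rw [le_div_iff₀ (by positivity)]
      have hμL : 0 < μ * L := by positivity
      have a1 : (3 / 64 + μ0 / 2) * L * (8 * μ) ≤ 1 := by
        have : (3 / 64 + μ0 / 2) * L * (8 * μ) = 8 * (3 / 64 + μ0 / 2) * (μ * L) := by ring
        rw [this]
        refine le_trans ?_ h8
        apply mul_le_mul_of_nonneg_right _ hμL.le
        linarith
      have a2 : 13 * K * (8 * μ) ≤ 1 := by linarith
      have a3 : 2 * K * v ^ 2 * (8 * μ) = 16 / 104 * (104 * K * μ) * v ^ 2 := by ring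
      have a4 : 16 / 104 * (104 * K * μ) * v ^ 2 ≤ 16 / 104 * 1 * v ^ 2 := by
        apply mul_le_mul_of_nonneg_right _ (by positivity)
        linarith
      have a5 : (13 * K + (3 / 64 + μ0 / 2) * L + 2 * K * v ^ 2) * (8 * μ) =
        13 * K * (8 * μ) + (3 / 64 + μ0 / 2) * L * (8 * μ) + 2 * K * v ^ 2 * (8 * μ) := by ring
      rw [a5, a3]
      linarith
    rw [esplit]
    linarith

/-- upper bound for the backward flow, bounded scale -/
lemma bd2 (h : S_BACK) {t μ K μ0 Γt L : ℝ} (hL1 : 1 ≤ L) (D : Far t (L / 2) Γt K μ0)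
    (hμ : 0 < μ) (h104 : 104 * K * μ ≤ 1) {x y : ℝ} (hx : 0 ≤ x) :
    ‖LL gk (-μ) ((x : ℂ) + (y : ℂ) * I)‖ ≤ 2 * ‖LL gk 0 ((2 : ℝ) + (t : ℂ) * I)‖ *
      Real.exp (L * x + (μ0 * L + 6 * K + 2 * K * (y - t) ^ 2) + 2 * K * x ^ 2) := by
  have hLp : 0 < L := by linarith
  have hK1 := D.K1
  have hμ0 := D.μ0p
  have hK0 : 0 < K := by linarith
  have hΓ0 := D.Γpos
  have hlow := D.low (((2 : ℝ) : ℂ) + (t : ℂ) * I) (by simp; norm_num)
  have e1 : (((2 : ℝ) : ℂ) + (t : ℂ) * I).re = 2 := by simp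
  have e2 : (((2 : ℝ) : ℂ) + (t : ℂ) * I).im = t := by simp
  rw [e1, e2, sub_self] at hlow
  set G := ‖LL gk 0 (((2 : ℝ) : ℂ) + (t : ℂ) * I)‖ with hG
  have hGp : 0 < G := lt_of_lt_of_le (by positivity) hlow
  have hΓt : Γt ≤ G * Real.exp (5 * K) := by
    have h3 := mul_le_mul_of_nonneg_right hlow
      (Real.exp_pos (-(L / 2 * 2 - K * (1 + 2 ^ 2 + 0 ^ 2)))).le
    rw [mul_assoc, ← Real.exp_add, add_neg_cancel, Real.exp_zero, mul_one] at h3
    refine h3.trans (mul_le_mul_of_nonneg_left (Real.exp_le_exp.mpr ?_) hGp.le)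
    linarith
  refine back_bd h hμ hGp.le fun v => ?_
  have ev : (x : ℂ) + (y : ℂ) * I + v * I = (x : ℂ) + ((t + (y - t + v) : ℝ) : ℂ) * I := by
    push_cast; ring
  have esplit : -v ^ 2 / (4 * μ) = -(v ^ 2 / (8 * μ)) + -v ^ 2 / (8 * μ) := by
    field_simp
    ring
  have hLx : 0 ≤ L * x := by positivity
  have hKx : 0 ≤ K * x ^ 2 := by positivity
  have hμL : 0 ≤ μ0 * L := by positivity
  rw [ev]
  have h1 := D.up ((x : ℂ) + ((t + (y - t + v) : ℝ) : ℂ) * I)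
  have e1' : ((x : ℂ) + ((t + (y - t + v) : ℝ) : ℂ) * I).re = x := by simp
  have e2' : ((x : ℂ) + ((t + (y - t + v) : ℝ) : ℂ) * I).im - t = y - t + v := by simp
  rw [e1', e2', abs_of_nonneg hx] at h1
  have h2 := h1.trans (mul_le_mul_of_nonneg_right hΓt (Real.exp_pos _).le)
  refine (mul_le_mul_of_nonneg_right h2 (Real.exp_pos _).le).trans ?_
  rw [mul_assoc G, mul_assoc G, mul_assoc G, ← Real.exp_add, ← Real.exp_add, ← Real.exp_add]
  apply mul_le_mul_of_nonneg_left _ hGp.le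
  apply Real.exp_le_exp.mpr
  have h3 : (y - t + v) ^ 2 ≤ 2 * (y - t) ^ 2 + 2 * v ^ 2 := by
    have h6 := sq_nonneg (y - t - v)
    linarith
  have h4 : K * (1 + x ^ 2 + (y - t + v) ^ 2) ≤ K * (1 + x ^ 2 + (2 * (y - t) ^ 2 + 2 * v ^ 2)) :=
    mul_le_mul_of_nonneg_left (by linarith) hK0.le
  have h5 : 2 * K * v ^ 2 ≤ v ^ 2 / (8 * μ) := by
    rw [le_div_iff₀ (by positivity)]
    have a3 : 2 * K * v ^ 2 * (8 * μ) = 16 / 104 * (104 * K * μ) * v ^ 2 := by ring
    have a4 : 16 / 104 * (104 * K * μ) * v ^ 2 ≤ 16 / 104 * 1 * v ^ 2 := by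
      apply mul_le_mul_of_nonneg_right _ (by positivity)
      linarith
    have a5 : 0 ≤ v ^ 2 := sq_nonneg v
    rw [a3]
    linarith
  rw [esplit]
  linarith

/-- the count from the bounds -/
lemma gen (h2 : S_FORW) (hd : ∀ μ : ℝ, Differentiable ℂ (LL gk (-μ)))
    {μ t G X1 L E K s1 ρ0 E2 xm ym a : ℝ} (hμ : 0 < μ) (hG : 0 < G) (hX1 : 0 ≤ X1)
    (hGd : G = ‖LL gk 0 ((X1 : ℂ) + (t : ℂ) * I)‖)
    (hline : ∀ x : ℝ, 0 ≤ x → ‖LL gk (-μ) ((x : ℂ) + (t : ℂ) * I)‖ ≤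
      2 * G * Real.exp (L * x + E + 2 * K * x ^ 2))
    (htail : ∀ s : ℝ, s1 ≤ |s| → L * |X1 + s| + E + 2 * K * (X1 + s) ^ 2 + 3 ≤ s ^ 2 / (8 * μ))
    (hρ0 : 0 < ρ0)
    (hbox : ∀ x y : ℝ, 0 ≤ x → x ≤ xm → |y - t| ≤ ym →
      ‖LL gk (-μ) ((x : ℂ) + (y : ℂ) * I)‖ ≤ 2 * G * Real.exp E2)
    (hxm : X1 + s1 + Real.exp 1 * ρ0 ≤ xm) (hym : Real.exp 1 * ρ0 ≤ ym)
    (S : Finset ℂ) (hS : ∀ u ∈ S, LL gk (-μ) u = 0 ∧ |u.im - t| ≤ a ∧ |u.re| ≤ a)
    (hρ : a + (X1 + s1) + a ≤ ρ0) :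
    ∑ u ∈ S, (analyticOrderNatAt (LL gk (-μ)) u : ℝ) ≤ Real.log 8 + E2 := by
  obtain ⟨s, hs, hlow⟩ := ex_pt (H := LL gk (-μ)) (μ := μ) (t := t) (G := G) (X1 := X1) (L := L)
    (E := E) (K := K) (s1 := s1) hμ hG (by
      rw [hGd]
      exact h2 μ hμ ((X1 : ℂ) + (t : ℂ) * I)) (fun x => by
      rw [sym_norm, ← sq_abs x]
      exact hline |x| (abs_nonneg x)) htail
  have hx1s : |X1 + s| ≤ X1 + s1 := by
    have h1 := abs_add_le X1 s
    rw [abs_of_nonneg hX1] at h1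
    linarith
  refine jen1 (hd μ) hG hρ0 hlow (fun z hz => ?_) S (fun u hu => ?_)
  · have e : ((X1 + s : ℝ) : ℂ) + (t : ℂ) * I + z =
        ((X1 + s + z.re : ℝ) : ℂ) + ((t + z.im : ℝ) : ℂ) * I := by
      apply Complex.ext <;> simp
    rw [e, sym_norm]
    have hr := (abs_re_le_norm z).trans hz
    have hi := (abs_im_le_norm z).trans hz
    refine hbox _ _ (abs_nonneg _) ?_ ?_
    · have h1 := abs_add_le (X1 + s) z.re
      linarith
    · rw [show t + z.im - t = z.im by ring]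
      exact hi.trans hym
  · obtain ⟨h3, h4, h5⟩ := hS u hu
    refine ⟨h3, ?_⟩
    refine (norm_le_abs_re_add_abs_im _).trans ?_
    have e1 : (u - (((X1 + s : ℝ) : ℂ) + (t : ℂ) * I)).re = u.re - (X1 + s) := by simp
    have e2 : (u - (((X1 + s : ℝ) : ℂ) + (t : ℂ) * I)).im = u.im - t := by simp
    rw [e1, e2]
    have h6 := abs_sub u.re (X1 + s)
    linarith

theorem cntn (h1 : S_BACK) (h2 : S_FORW) : S_CNTN := by
  obtain ⟨A, K, μ0, T2, hK, hμ0, hT2, k, hfar⟩ := Pool.Agent.H271.HP.data4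
  have hK0 : 0 < K := by linarith
  have hW : 0 < 1000 * (1 + K + μ0) := by positivity
  refine ⟨1 / 64, (16152 + 40560 * K) + (21 + μ0 + 1046 * K) * 12000, 192, T2,
    1 / (1000 * (1 + K + μ0)), by norm_num, by positivity, by norm_num, hT2, by positivity, ?_⟩
  intro T t y0 μ hT htT ht4 hy0 hy02 hR hμ hA hd h64 S hS
  have hT10 : 10 ≤ T := hT2.trans hT
  have D := hfar T t hT htT ht4
  have hΓp := D.Γpos
  set L := Real.log T with hL
  have hL1 : 1 ≤ L := by
    rw [hL, Real.le_log_iff_exp_le (by linarith)]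
    have := Real.exp_one_lt_d9
    linarith
  have hLp : 0 < L := by linarith
  have hμL : μ ≤ μ * L := le_mul_of_one_le_right hμ.le hL1
  have hμLp : 0 < μ * L := by positivity
  rw [le_div_iff₀ hW] at hd
  have hK1 : 0 ≤ (μ * L) * K := by positivity
  have hK2 : 0 ≤ (μ * L) * μ0 := by positivity
  have hKμ : K * μ ≤ K * (μ * L) := mul_le_mul_of_nonneg_left hμL hK0.le
  have h8 : 8 * (3 + μ0) * (μ * L) ≤ 1 := by linarith
  have h104 : 104 * K * μ ≤ 1 := by linarith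
  have h128 : 128 * K * μ ≤ 1 := by linarith
  have hyL : 3 ≤ y0 * L := by
    have h3 : μ * L * L ≤ 64 * y0 * L := mul_le_mul_of_nonneg_right h64 hLp.le
    have h4 : μ * L ^ 2 = μ * L * L := by ring
    rw [h4] at hA
    linarith
  have hyLp : 0 < y0 * L := by linarith
  have hl8 : Real.log 8 ≤ 3 := by
    rw [show (8 : ℝ) = 2 ^ 3 by norm_num, Real.log_pow]
    have := Real.log_two_lt_d9
    push_cast
    linarith
  have hdiff : ∀ μ : ℝ, Differentiable ℂ (LL gk (-μ)) := fun μ => k.differentiable (-μ)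
  have he1 := Real.exp_one_lt_d9
  have he0 := Real.exp_pos 1
  rcases le_or_gt y0 (1 / 12000) with hc | hc
  · -- small scale
    have hyy : y0 * L / L = y0 := by field_simp
    have RR : Rg T t (y0 * L) 64 (1 / 64) := by
      refine ⟨by rw [← hL, hyy]; exact hR.1, fun z hz => ?_⟩
      rw [← hL, hyy] at hz
      exact hR.2 z hz
    have hy1 : y0 ≤ 1 := by linarith
    have hmem : (y0 : ℂ) + (t : ℂ) * I ∈ Kt t y0 4 64 := by
      refine ⟨?_, ?_, ?_⟩
      · simp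
      · simp; linarith
      · simp; linarith
    have hGp : 0 < ‖LL gk 0 ((y0 : ℂ) + (t : ℂ) * I)‖ :=
      norm_pos_iff.2 (F_ne (cone_ne hy0 (by norm_num) hR.1 hmem))
    set G := ‖LL gk 0 ((y0 : ℂ) + (t : ℂ) * I)‖ with hG
    have hb : ∀ x y : ℝ, 0 ≤ x → |y - t| ≤ 1 → ‖LL gk (-μ) ((x : ℂ) + (y : ℂ) * I)‖ ≤
        2 * G * Real.exp (L * x + (4 * (y0 * L) + L / 21 * |y - t|) + 2 * K * x ^ 2) :=
      fun x y hx hy => bd1 h1 hL hT10 hL1 hy0 hy1 RR D hμ h64 h8 h104 hx hy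
    have key := gen h2 hdiff (μ := μ) (t := t) (G := G) (X1 := y0) (L := L) (E := 4 * (y0 * L))
      (K := K) (s1 := 4096 * y0) (ρ0 := 4225 * y0) (E2 := (16151 + 40560 * K) * (y0 * L))
      (xm := 15600 * y0) (ym := 11485 * y0) (a := 64 * y0) hμ hGp hy0.le hG
      (fun x hx => by
        have h3 := hb x t hx (by rw [sub_self, abs_zero]; norm_num)
        rw [sub_self, abs_zero, mul_zero, add_zero] at h3
        exact h3)
      (fun s hs => by
        have hs0 := abs_nonneg s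
        have e1 : s ^ 2 = |s| ^ 2 := (sq_abs s).symm
        have e2 : (y0 + s) ^ 2 = |y0 + s| ^ 2 := (sq_abs _).symm
        have h3 : |y0 + s| ≤ y0 + |s| := by
          have := abs_add_le y0 s
          rwa [abs_of_pos hy0] at this
        have h4 : |y0 + s| ^ 2 ≤ (2 * |s|) ^ 2 :=
          pow_le_pow_left₀ (abs_nonneg _) (by linarith) 2
        have h5 : L * |y0 + s| ≤ L * (y0 + |s|) := mul_le_mul_of_nonneg_left h3 hLp.le
        have h6 : L * (4096 * y0) ≤ L * |s| := mul_le_mul_of_nonneg_left hs hLp.le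
        have h7 : L * |y0 + s| + 4 * (y0 * L) + 3 ≤ 2 * (L * |s|) := by linarith
        have h8 : 2 * K * |y0 + s| ^ 2 ≤ 2 * K * (2 * |s|) ^ 2 :=
          mul_le_mul_of_nonneg_left h4 (by positivity)
        rw [e1, e2, le_div_iff₀ (by positivity)]
        have h9 : (L * |y0 + s| + 4 * (y0 * L) + 2 * K * |y0 + s| ^ 2 + 3) * (8 * μ) ≤
            (2 * (L * |s|) + 2 * K * (2 * |s|) ^ 2) * (8 * μ) :=
          mul_le_mul_of_nonneg_right (by linarith) (by positivity)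
        refine h9.trans ?_
        have h10 : 16 * (μ * L) * |s| ≤ |s| / 2 * |s| :=
          mul_le_mul_of_nonneg_right (by linarith) hs0
        have h11 : 64 * K * μ * |s| ^ 2 ≤ 1 / 2 * |s| ^ 2 :=
          mul_le_mul_of_nonneg_right (by linarith) (by positivity)
        have e3 : (2 * (L * |s|) + 2 * K * (2 * |s|) ^ 2) * (8 * μ) =
          16 * (μ * L) * |s| + 64 * K * μ * |s| ^ 2 := by ring
        rw [e3]
        have e4 : |s| / 2 * |s| = 1 / 2 * |s| ^ 2 := by ring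
        rw [e4] at h10
        linarith)
      (by positivity)
      (fun x y hx hxm hy => by
        refine (hb x y hx (by linarith)).trans ?_
        apply mul_le_mul_of_nonneg_left _ (by positivity)
        apply Real.exp_le_exp.mpr
        have h3 : L * x ≤ L * (15600 * y0) := mul_le_mul_of_nonneg_left hxm hLp.le
        have h4 : L / 21 * |y - t| ≤ L / 21 * (11485 * y0) :=
          mul_le_mul_of_nonneg_left hy (by positivity)
        have h5 : x ^ 2 ≤ 20280 * (y0 * L) := by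
          have h6 : x ^ 2 ≤ (15600 * y0) ^ 2 := pow_le_pow_left₀ hx hxm 2
          have h7 : (15600 * y0) ^ 2 ≤ 20280 * y0 := by
            have h8 : y0 * y0 ≤ 1 / 12000 * y0 := mul_le_mul_of_nonneg_right hc hy0.le
            have e : (15600 * y0) ^ 2 = 243360000 * (y0 * y0) := by ring
            rw [e]
            linarith
          have h8 : y0 * 1 ≤ y0 * L := mul_le_mul_of_nonneg_left hL1 hy0.le
          linarith
        have h6 : 2 * K * x ^ 2 ≤ 2 * K * (20280 * (y0 * L)) :=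
          mul_le_mul_of_nonneg_left h5 (by positivity)
        linarith)
      (by
        have h3 : Real.exp 1 * (4225 * y0) ≤ 2.7182818286 * (4225 * y0) :=
          mul_le_mul_of_nonneg_right he1.le (by positivity)
        linarith)
      (by
        have h3 : Real.exp 1 * (4225 * y0) ≤ 2.7182818286 * (4225 * y0) :=
          mul_le_mul_of_nonneg_right he1.le (by positivity)
        linarith)
      S
      (fun u hu => by
        obtain ⟨h3, h4, h5⟩ := hS u hu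
        exact ⟨h3, h4.trans h64, h5.trans h64⟩)
      (by linarith)
    refine key.trans ?_
    have h3 : 0 ≤ (21 + μ0 + 1046 * K) * 12000 * (y0 * L) := by positivity
    linarith
  · -- bounded scale
    have hmem := D.low (((2 : ℝ) : ℂ) + (t : ℂ) * I) (by simp; norm_num)
    have hGp : 0 < ‖LL gk 0 (((2 : ℝ) : ℂ) + (t : ℂ) * I)‖ := lt_of_lt_of_le (by positivity) hmem
    set G := ‖LL gk 0 (((2 : ℝ) : ℂ) + (t : ℂ) * I)‖ with hG
    have hb : ∀ x y : ℝ, 0 ≤ x → ‖LL gk (-μ) ((x : ℂ) + (y : ℂ) * I)‖ ≤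
        2 * G * Real.exp (L * x + (μ0 * L + 6 * K + 2 * K * (y - t) ^ 2) + 2 * K * x ^ 2) :=
      fun x y hx => bd2 h1 hL1 D hμ h104 hx
    have hμL2 : μ * L ≤ 1 / 2 := by linarith
    have key := gen h2 hdiff (μ := μ) (t := t) (G := G) (X1 := 2) (L := L) (E := μ0 * L + 6 * K)
      (K := K) (s1 := 2) (ρ0 := 5) (E2 := (18 + μ0 + 1046 * K) * L)
      (xm := 18) (ym := 14) (a := 1 / 2) hμ hGp (by norm_num) hG
      (fun x hx => by
        have h3 := hb x t hx
        rw [sub_self] at h3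
        have e : μ0 * L + 6 * K + 2 * K * (0 : ℝ) ^ 2 = μ0 * L + 6 * K := by ring
        rw [e] at h3
        exact h3)
      (fun s hs => by
        have hs0 := abs_nonneg s
        have e1 : s ^ 2 = |s| ^ 2 := (sq_abs s).symm
        have e2 : (2 + s) ^ 2 = |2 + s| ^ 2 := (sq_abs _).symm
        have h3 : |2 + s| ≤ 2 + |s| := by
          have := abs_add_le 2 s
          rwa [abs_of_pos (show (0 : ℝ) < 2 by norm_num)] at this
        have h4 : |2 + s| ^ 2 ≤ (2 * |s|) ^ 2 :=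
          pow_le_pow_left₀ (abs_nonneg _) (by linarith) 2
        have hs4 : 2 * |s| ≤ |s| ^ 2 := by
          have := mul_le_mul_of_nonneg_right hs hs0
          rw [pow_two]
          exact this
        have hs5 : 4 ≤ |s| ^ 2 := by linarith
        have h5 : L * |2 + s| ≤ L * |s| ^ 2 := by
          apply mul_le_mul_of_nonneg_left _ hLp.le
          linarith
        have h8 : 2 * K * |2 + s| ^ 2 ≤ 2 * K * (2 * |s|) ^ 2 :=
          mul_le_mul_of_nonneg_left h4 (by positivity)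
        have h6 : (μ0 * L + 6 * K + 3) * 4 ≤ (μ0 * L + 6 * K + 3) * |s| ^ 2 :=
          mul_le_mul_of_nonneg_left hs5 (by positivity)
        rw [e1, e2, le_div_iff₀ (by positivity)]
        have h7 : 0 ≤ (μ0 * L + 6 * K + 3) * |s| ^ 2 := by positivity
        have h9 : (L * |2 + s| + (μ0 * L + 6 * K) + 2 * K * |2 + s| ^ 2 + 3) * (8 * μ) ≤
            ((L + (μ0 * L + 6 * K + 3) + 8 * K) * |s| ^ 2) * (8 * μ) :=
          mul_le_mul_of_nonneg_right (by linarith) (by positivity)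
        refine h9.trans ?_
        have e3 : (L + (μ0 * L + 6 * K + 3) + 8 * K) * |s| ^ 2 * (8 * μ) =
          (8 * (μ * L) + 8 * (μ * L * μ0) + 112 * (K * μ) + 24 * μ) * |s| ^ 2 := by ring
        rw [e3]
        have h10 : (8 * (μ * L) + 8 * (μ * L * μ0) + 112 * (K * μ) + 24 * μ) * |s| ^ 2 ≤
            1 * |s| ^ 2 := by
          apply mul_le_mul_of_nonneg_right _ (by positivity)
          linarith
        linarith)
      (by norm_num)
      (fun x y hx hxm hy => by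
        refine (hb x y hx).trans ?_
        apply mul_le_mul_of_nonneg_left _ (by positivity)
        apply Real.exp_le_exp.mpr
        have h3 : L * x ≤ L * 18 := mul_le_mul_of_nonneg_left hxm hLp.le
        have h4 : (y - t) ^ 2 ≤ 14 ^ 2 := by
          rw [← sq_abs (y - t)]
          exact pow_le_pow_left₀ (abs_nonneg _) hy 2
        have h5 : x ^ 2 ≤ 18 ^ 2 := pow_le_pow_left₀ hx hxm 2
        have h6 : 2 * K * x ^ 2 ≤ 2 * K * 18 ^ 2 := mul_le_mul_of_nonneg_left h5 (by positivity)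
        have h7 : 2 * K * (y - t) ^ 2 ≤ 2 * K * 14 ^ 2 :=
          mul_le_mul_of_nonneg_left h4 (by positivity)
        have h8 : 1046 * K * 1 ≤ 1046 * K * L := mul_le_mul_of_nonneg_left hL1 (by positivity)
        linarith)
      (by linarith)
      (by linarith)
      S
      (fun u hu => by
        obtain ⟨h3, h4, h5⟩ := hS u hu
        exact ⟨h3, h4.trans hμL2, h5.trans hμL2⟩)
      (by norm_num)
    refine key.trans ?_
    have h3 : L ≤ 12000 * (y0 * L) := by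
      have h4 : 1 / 12000 * L ≤ y0 * L := mul_le_mul_of_nonneg_right hc.le hLp.le
      linarith
    have h4 : (21 + μ0 + 1046 * K) * L ≤ (21 + μ0 + 1046 * K) * (12000 * (y0 * L)) :=
      mul_le_mul_of_nonneg_left h3 (by positivity)
    have h5 : 0 ≤ (16152 + 40560 * K) * (y0 * L) := by positivity
    linarith

end Pool.Agent.H585.HD
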